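import Pool.Agent.Helper1.UQ.St1

/-!
Project UQ (MP_e3e162_pr), module KAP: the ending rate.
-/

set_option autoImplicit false

open Finset

namespace Pool.Agent.Helper89.UQ

open Classical Pool.Agent.Helper30.RCU Pool.Agent.Helper1.UQ

universe u

theorem hKAP (hPSI : StPSI.{u}) : StKAP.{u} := by
  intro V ι φ p q hp hp1 hq hq2 E T F g v f hFT hTE hfE hfT
  have hq0 : 0 < q := by linarith
  have hlam : 1 ≤ 2 / q := by
    rw [le_div_iff₀ hq0]
    linarith
  obtain ⟨hanti, hone, -, hins⟩ := hPSI V ι φ (2 / q) hlam F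
  have hZ : 0 < S φ p q E (fun _ => 1) := S_one_pos hp hp1 hq E
  have hfF : f ∉ F := fun h => hfT (hFT h)
  set E' := E \ insert f T with hE'
  have hEE : E \ T = insert f E' := by
    ext x
    simp only [hE', mem_sdiff, mem_insert]
    constructor
    · rintro ⟨h1, h2⟩
      by_cases hx : x = f
      · exact Or.inl hx
      · exact Or.inr ⟨h1, fun h => h.elim hx h2⟩
    · rintro (rfl | ⟨h1, h2⟩)
      · exact ⟨hfE, hfT⟩
      · exact ⟨h1, fun h => h2 (Or.inr h)⟩
  have hfE' : f ∉ E' := by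
    simp [hE']
  have hTF : insert f T \ insert f F = T \ F := by
    ext x
    simp only [mem_sdiff, mem_insert]
    constructor
    · rintro ⟨h1 | h1, h2⟩
      · exact absurd (Or.inl h1) h2
      · exact ⟨h1, fun h => h2 (Or.inr h)⟩
    · rintro ⟨h1, h2⟩
      refine ⟨Or.inr h1, ?_⟩
      rintro (h | h)
      · exact hfT (h ▸ h1)
      · exact h2 h
  -- the main comparison of sums
  have hmain : S φ p q (E \ T) (fun ω => ps φ (2 / q) F ω * ind φ v g ω) ≤
      S φ p q E' (fun ω => ps φ (2 / q) (insert f F) ω * ind φ g g ω) := by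
    have h0 : ∀ ω, 0 ≤ ps φ (2 / q) F ω := fun ω => le_trans zero_le_one (hone ω)
    have hA : S φ p q E' (fun ω => ps φ (2 / q) F ω * ind φ v g ω) ≤
        S φ p q E' (fun ω => ps φ (2 / q) (insert f F) ω * ind φ g g ω) := by
      refine S_mono hp hp1 hq E' fun ω => ?_
      rw [ind_self, mul_one]
      calc ps φ (2 / q) F ω * ind φ v g ω ≤ ps φ (2 / q) F ω * 1 :=
            mul_le_mul_of_nonneg_left (ind_le_one v g ω) (h0 ω)
        _ = ps φ (2 / q) F ω := mul_one _
        _ ≤ _ := hins f ω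
    have hB : S φ p q E' (fun ω => theta φ q f ω *
        (ps φ (2 / q) F (insert f ω) * ind φ v g (insert f ω))) ≤
        S φ p q E' (fun ω => ps φ (2 / q) (insert f F) ω * ind φ g g ω) := by
      refine S_mono hp hp1 hq E' fun ω => ?_
      rw [ind_self, mul_one]
      have hth : theta φ q f ω ≤ 1 := by
        unfold theta
        split_ifs
        · exact le_rfl
        · exact inv_le_one_of_one_le₀ hq
      have hth0 : 0 ≤ theta φ q f ω := (theta_pos hq f ω).le
      have h1 : ps φ (2 / q) F (insert f ω) * ind φ v g (insert f ω) ≤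
          ps φ (2 / q) F (insert f ω) := by
        calc ps φ (2 / q) F (insert f ω) * ind φ v g (insert f ω) ≤
            ps φ (2 / q) F (insert f ω) * 1 :=
              mul_le_mul_of_nonneg_left (ind_le_one v g _) (h0 _)
          _ = _ := mul_one _
      have h2 : ps φ (2 / q) F (insert f ω) ≤ ps φ (2 / q) F ω := hanti (subset_insert f ω)
      have h3 : 0 ≤ ps φ (2 / q) F (insert f ω) * ind φ v g (insert f ω) :=
        mul_nonneg (h0 _) (ind_nonneg _ _ _)
      calc theta φ q f ω * (ps φ (2 / q) F (insert f ω) * ind φ v g (insert f ω))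
          ≤ 1 * (ps φ (2 / q) F (insert f ω) * ind φ v g (insert f ω)) :=
            mul_le_mul_of_nonneg_right hth h3
        _ = ps φ (2 / q) F (insert f ω) * ind φ v g (insert f ω) := one_mul _
        _ ≤ ps φ (2 / q) F (insert f ω) := h1
        _ ≤ ps φ (2 / q) F ω := h2
        _ ≤ _ := hins f ω
    rw [hEE, S_insert hq hfE']
    have h1 := mul_le_mul_of_nonneg_left hA (sub_nonneg.mpr (hp1 f))
    have h2 := mul_le_mul_of_nonneg_left hB (hp f)
    linarith
  unfold TW
  rw [hTF, prod_insert hfF]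
  have hc : 0 ≤ (∏ e ∈ F, p e / 2) * ∏ e ∈ T \ F, (1 - p e) :=
    mul_nonneg (prod_nonneg fun e _ => div_nonneg (hp e) (by norm_num))
      (prod_nonneg fun e _ => sub_nonneg.mpr (hp1 e))
  have hpf : 0 ≤ p f / 2 := div_nonneg (hp f) (by norm_num)
  rw [← mul_div_assoc]
  refine div_le_div_of_nonneg_right ?_ hZ.le
  have h1 := mul_le_mul_of_nonneg_left hmain (mul_nonneg hpf hc)
  calc p f / 2 * ((∏ e ∈ F, p e / 2) * (∏ e ∈ T \ F, (1 - p e)) *
        S φ p q (E \ T) (fun ω => ps φ (2 / q) F ω * ind φ v g ω))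
      = p f / 2 * ((∏ e ∈ F, p e / 2) * ∏ e ∈ T \ F, (1 - p e)) *
        S φ p q (E \ T) (fun ω => ps φ (2 / q) F ω * ind φ v g ω) := by ring
    _ ≤ _ := h1
    _ = _ := by ring

end Pool.Agent.Helper89.UQ
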